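import Pool.Agent.TH381.RM3.Defs
import Pool.Agent.TH805.RM.Pipe

/-!
# Project RM3, part PIPE: the pipeline whose stages start in given states

The stage `k + 1` of the pipeline starts in the state `s k`; the word `y` is at the beginning in
the source cell `-l`, and the cells `1, 2, ...` are sinks.
-/

set_option autoImplicit false

namespace Pool.Agent.TH247.RM3

open Pool.Agent.H584R2.Dg Pool.Agent.W614.Dg Pool.Agent.TH381.RM3
open Pool.Agent.TH381.RM (buf rule Cell)
open Pool.Agent.TH805.RM (rule_nil_nil rule_nil_cons rule_cons_nil rule_cons_cons take_step)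

section pipe

variable {S : Type} (τ : Dgsm S) (s : ℕ → τ.Q) (y : List S) (l : ℕ)

/-- the cell of the stage `k` -/
def st (k t : ℕ) : Cell τ := Pool.Agent.TH381.RM3.cf τ s y l t ((k : ℤ) - l)

open Classical in
/-- the number of letters lost by the stage `k` before the time `t` -/
noncomputable def em (k : ℕ) : ℕ → ℕ
  | 0 => 0
  | t + 1 => em k t + if buf (st τ s y l k t) ≠ [] ∧ buf (st τ s y l (k + 1) t) = [] then 1 else 0

/-- the word produced by the stage `k` before the time `t` -/
noncomputable def prd : ℕ → ℕ → List S
  | 0, _ => y
  | k + 1, t => τ.run (s k) ((runs τ s y k).take (em τ s y l k t))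

/-- the state of the stage `k` at the time `t` -/
noncomputable def sta : ℕ → ℕ → τ.Q
  | 0, _ => τ.init
  | k + 1, t => stAfter τ (s k) ((runs τ s y k).take (em τ s y l k t))

variable {τ s y l}

lemma em_yes {k t : ℕ} (h1 : buf (st τ s y l k t) ≠ []) (h2 : buf (st τ s y l (k + 1) t) = []) :
    em τ s y l k (t + 1) = em τ s y l k t + 1 := by
  rw [em, if_pos ⟨h1, h2⟩]

lemma em_no {k t : ℕ} (h : ¬ (buf (st τ s y l k t) ≠ [] ∧ buf (st τ s y l (k + 1) t) = [])) :
    em τ s y l k (t + 1) = em τ s y l k t := by
  rw [em, if_neg h, add_zero]

lemma runs_succ (k : ℕ) : runs τ s y (k + 1) = τ.run (s k) (runs τ s y k) := rfl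

lemma run_take_prefix (k m : ℕ) : τ.run (s k) ((runs τ s y k).take m) <+: runs τ s y (k + 1) := by
  rw [runs_succ]
  refine ⟨τ.run (stAfter τ (s k) ((runs τ s y k).take m)) ((runs τ s y k).drop m), ?_⟩
  rw [← run_append, List.take_append_drop]

lemma prd_prefix (k t : ℕ) : prd τ s y l k t <+: runs τ s y k := by
  cases k with
  | zero => exact List.prefix_refl _
  | succ k => exact run_take_prefix k _

/-! ### the cells at the border -/

lemma left_cells (t : ℕ) (i : ℤ) (hi : i + l < 0) :
    Pool.Agent.TH381.RM3.cf τ s y l t i = some (s 0, []) := by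
  induction t generalizing i with
  | zero =>
    have e : (i + l - 1).toNat = 0 := by omega
    rw [Pool.Agent.TH381.RM3.cf, if_neg (by omega), if_neg (by omega), e]
  | succ t ih =>
    rw [Pool.Agent.TH381.RM3.cf, ih i hi, ih (i - 1) (by omega)]
    exact rule_nil_nil rfl _ _

lemma sink (t : ℕ) : Pool.Agent.TH381.RM3.cf τ s y l t 1 = none := by
  induction t with
  | zero => rw [Pool.Agent.TH381.RM3.cf, if_neg (by omega), if_pos le_rfl]
  | succ t ih => rw [Pool.Agent.TH381.RM3.cf, ih]; rfl

lemma st_sink (t : ℕ) : st τ s y l (l + 1) t = none := by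
  unfold st
  have e : ((l + 1 : ℕ) : ℤ) - l = 1 := by push_cast; ring
  rw [e]
  exact sink t

lemma st_zero_step (t : ℕ) : st τ s y l 0 (t + 1) =
    rule τ (some (s 0, [])) (st τ s y l 0 t) (st τ s y l 1 t) := by
  unfold st
  rw [Pool.Agent.TH381.RM3.cf, left_cells t _ (by push_cast; omega)]
  congr 2
  push_cast
  ring

lemma st_step (k t : ℕ) : st τ s y l (k + 1) (t + 1) =
    rule τ (st τ s y l k t) (st τ s y l (k + 1) t) (st τ s y l (k + 2) t) := by
  unfold st
  rw [Pool.Agent.TH381.RM3.cf]
  congr 2
  · push_cast; ring
  · push_cast; ring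

/-! ### the invariant -/

/-- the invariant -/
def Inv (τ : Dgsm S) (s : ℕ → τ.Q) (y : List S) (l k t : ℕ) : Prop :=
  ∃ o, st τ s y l k t = some (sta τ s y l k t, o) ∧
    (runs τ s y k).take (em τ s y l k t) ++ o = prd τ s y l k t ∧
    em τ s y l k t ≤ (runs τ s y k).length

lemma inv_zero {k : ℕ} (hk : k ≤ l) : Inv τ s y l k 0 := by
  cases k with
  | zero =>
    refine ⟨y, ?_, ?_, ?_⟩
    · unfold st sta
      rw [Pool.Agent.TH381.RM3.cf, if_pos (by push_cast; ring)]
    · simp [em, prd]
    · simp [em]
  | succ k =>
    refine ⟨[], ?_, ?_, ?_⟩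
    · unfold st
      have e : (((k + 1 : ℕ) : ℤ) - l + l - 1).toNat = k := by push_cast; omega
      rw [Pool.Agent.TH381.RM3.cf, if_neg (by push_cast; omega), if_neg (by push_cast; omega), e]
      simp [sta, em, stAfter]
    · simp [em, prd, Dgsm.run]
    · simp [em]

/-- a stage whose buffer is not consumed and which consumes nothing -/
lemma inv_step_cons {k t : ℕ} {a : S} {o : List S}
    (h1 : st τ s y l k t = some (sta τ s y l k t, a :: o))
    (h2 : (runs τ s y k).take (em τ s y l k t) ++ a :: o = prd τ s y l k t)
    (h3 : em τ s y l k t ≤ (runs τ s y k).length)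
    (hs : st τ s y l k (t + 1) =
        rule τ (st τ s y l (k - 1) t) (st τ s y l k t) (st τ s y l (k + 1) t) ∨
      st τ s y l k (t + 1) = rule τ (some (s 0, [])) (st τ s y l k t) (st τ s y l (k + 1) t))
    (hsta : sta τ s y l k (t + 1) = sta τ s y l k t)
    (hprd : prd τ s y l k (t + 1) = prd τ s y l k t) :
    Inv τ s y l k (t + 1) := by
  have hb : buf (st τ s y l k t) = a :: o := by rw [h1]; rfl
  by_cases hz : buf (st τ s y l (k + 1) t) = []
  · have hem := em_yes (k := k) (t := t) (by rw [hb]; simp) hz
    obtain ⟨g1, g2⟩ := take_step h3 (h2 ▸ prd_prefix k t)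
    refine ⟨o, ?_, ?_, ?_⟩
    · rw [hsta]
      rcases hs with hs | hs
      · rw [hs, h1]; exact rule_cons_nil hz _ _ _ _
      · rw [hs, h1]; exact rule_cons_nil hz _ _ _ _
    · rw [hprd, hem, g1, ← h2]
      simp
    · rw [hem]; exact g2
  · have hem : em τ s y l k (t + 1) = em τ s y l k t := em_no (fun h => hz h.2)
    refine ⟨a :: o, ?_, ?_, ?_⟩
    · rw [hsta]
      rcases hs with hs | hs
      · rw [hs, h1]; exact rule_cons_cons hz _ _ _ _
      · rw [hs, h1]; exact rule_cons_cons hz _ _ _ _
    · rw [hprd, hem, h2]
    · rw [hem]; exact h3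

lemma inv_all (t : ℕ) : ∀ k, k ≤ l → Inv τ s y l k t := by
  induction t with
  | zero => exact fun k hk => inv_zero hk
  | succ t ih =>
    intro k hk
    obtain ⟨o, h1, h2, h3⟩ := ih k hk
    cases k with
    | zero =>
      cases o with
      | nil =>
        have hb : buf (st τ s y l 0 t) = [] := by rw [h1]; rfl
        have hem : em τ s y l 0 (t + 1) = em τ s y l 0 t := em_no (fun h => h.1 hb)
        refine ⟨[], ?_, ?_, ?_⟩
        · rw [st_zero_step, h1]
          exact rule_nil_nil rfl _ _
        · rw [hem, h2]; rfl
        · rw [hem]; exact h3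
      | cons a o =>
        exact inv_step_cons h1 h2 h3 (Or.inr (st_zero_step t)) rfl rfl
    | succ k =>
      obtain ⟨o', g1, g2, g3⟩ := ih k (by omega)
      cases o with
      | nil =>
        have hb : buf (st τ s y l (k + 1) t) = [] := by rw [h1]; rfl
        have hem : em τ s y l (k + 1) (t + 1) = em τ s y l (k + 1) t := em_no (fun h => h.1 hb)
        cases o' with
        | nil =>
          have hb' : buf (st τ s y l k t) = [] := by rw [g1]; rfl
          have hem' : em τ s y l k (t + 1) = em τ s y l k t := em_no (fun h => h.1 hb')
          refine ⟨[], ?_, ?_, ?_⟩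
          · rw [st_step, h1, rule_nil_nil hb']
            simp only [sta, hem']
          · rw [hem, h2]
            simp only [prd, hem']
          · rw [hem]; exact h3
        | cons a w =>
          have hb' : buf (st τ s y l k t) = a :: w := by rw [g1]; rfl
          have hem' := em_yes (k := k) (t := t) (by rw [hb']; simp) hb
          obtain ⟨e1, -⟩ := take_step g3 (g2 ▸ prd_prefix k t)
          refine ⟨τ.out (sta τ s y l (k + 1) t) a, ?_, ?_, ?_⟩
          · rw [st_step, h1, rule_nil_cons hb']
            simp only [sta, hem', e1, stAfter_append]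
            simp [stAfter]
          · rw [List.append_nil] at h2
            rw [hem, h2]
            simp only [prd, sta, hem', e1, run_append]
            simp [Dgsm.run]
          · rw [hem]; exact h3
      | cons a o =>
        have hem' : em τ s y l k (t + 1) = em τ s y l k t := em_no (fun h => by
          have hb : buf (st τ s y l (k + 1) t) = a :: o := by rw [h1]; rfl
          rw [hb] at h
          simp at h)
        refine inv_step_cons h1 h2 h3 (Or.inl (st_step k t)) ?_ ?_
        · simp only [sta, hem']
        · simp only [prd, hem']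

/-! ### correctness -/

lemma heads (T : ℕ) :
    (List.range T).filterMap (fun t => (buf (Pool.Agent.TH381.RM3.cf τ s y l t 0)).head?) =
      (runs τ s y l).take (em τ s y l l T) := by
  have e0 : ∀ t, Pool.Agent.TH381.RM3.cf τ s y l t 0 = st τ s y l l t :=
    fun t => by unfold st; rw [sub_self]
  induction T with
  | zero => simp [em]
  | succ T ih =>
    rw [List.range_succ, List.filterMap_append, ih]
    obtain ⟨o, h1, h2, h3⟩ := inv_all (τ := τ) (s := s) (y := y) (l := l) T l le_rfl
    cases o with
    | nil =>
      have hb : buf (st τ s y l l T) = [] := by rw [h1]; rfl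
      rw [em_no (fun h => h.1 hb)]
      simp [e0, hb]
    | cons a o =>
      have hb : buf (st τ s y l l T) = a :: o := by rw [h1]; rfl
      rw [em_yes (by rw [hb]; simp) (by rw [st_sink]; rfl),
        (take_step h3 (h2 ▸ prd_prefix l T)).1]
      simp [e0, hb]

/-! ### speed -/

/-- the image in the row `k + j` of a prefix of the row `k` -/
def lat (τ : Dgsm S) (s : ℕ → τ.Q) : ℕ → ℕ → List S → List S
  | _, 0, u => u
  | k, j + 1, u => lat τ s (k + 1) j (τ.run (s k) u)

section speed

variable (hne : τ.NonErasing)

include hne in
lemma lat_len_lt (j : ℕ) (k : ℕ) (u v : List S) (hv : v ≠ []) :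
    (lat τ s k j u).length < (lat τ s k j (u ++ v)).length := by
  induction j generalizing k u v with
  | zero =>
    have := List.length_pos_of_ne_nil hv
    simp only [lat, List.length_append]
    omega
  | succ j ih =>
    rw [lat, lat, run_append]
    refine ih _ _ _ ?_
    have h1 := run_length hne (stAfter τ (s k) u) v
    have h2 := List.length_pos_of_ne_nil hv
    intro h
    rw [h, List.length_nil] at h1
    omega

/-- the length of the image in the row `l` of the first `m` letters of the row `k` -/
def dd (τ : Dgsm S) (s : ℕ → τ.Q) (y : List S) (l k m : ℕ) : ℕ :=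
  (lat τ s k (l - k) ((runs τ s y k).take m)).length

include hne in
lemma dd_lt {k m m' : ℕ} (h : m < m') (h' : m' ≤ (runs τ s y k).length) :
    dd τ s y l k m < dd τ s y l k m' := by
  unfold dd
  have e : (runs τ s y k).take m' =
      (runs τ s y k).take m ++ ((runs τ s y k).drop m).take (m' - m) := by
    have : m' = m + (m' - m) := by omega
    conv_lhs => rw [this, List.take_add]
  rw [e]
  refine lat_len_lt hne _ _ _ _ ?_
  intro h0
  have h1 := congrArg List.length h0
  simp only [List.length_take, List.length_drop, List.length_nil] at h1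
  omega

lemma dd_succ {k m : ℕ} (hk : k < l) :
    dd τ s y l k m = dd τ s y l (k + 1) (τ.run (s k) ((runs τ s y k).take m)).length := by
  unfold dd
  have e : l - k = (l - (k + 1)) + 1 := by omega
  rw [e, lat, ← List.prefix_iff_eq_take.1 (run_take_prefix k m)]

lemma dd_last {m : ℕ} (h : m ≤ (runs τ s y l).length) : dd τ s y l l m = m := by
  unfold dd
  rw [Nat.sub_self, lat, List.length_take]
  exact min_eq_left h

include hne in
lemma speed (t : ℕ) : ∀ k, k ≤ l → em τ s y l k t < (runs τ s y k).length →
    t ≤ 2 * dd τ s y l k (em τ s y l k t) + k + 1 := by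
  induction t with
  | zero => intro k _ _; omega
  | succ t ih =>
    intro k hk he
    by_cases hev : buf (st τ s y l k t) ≠ [] ∧ buf (st τ s y l (k + 1) t) = []
    · have hem := em_yes hev.1 hev.2
      rw [hem] at he ⊢
      have h1 := ih k hk (by omega)
      have h2 := dd_lt (τ := τ) (s := s) (y := y) (l := l) hne (k := k)
        (m := em τ s y l k t) (m' := em τ s y l k t + 1) (by omega) he.le
      omega
    · have hem := em_no hev
      rw [hem] at he ⊢
      obtain ⟨o, h1, h2, h3⟩ := inv_all (τ := τ) (s := s) (y := y) (l := l) t k hk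
      by_cases hb : buf (st τ s y l k t) = []
      · -- nothing to lose
        have ho : o = [] := by
          rw [h1] at hb
          exact hb
        rw [ho, List.append_nil] at h2
        have hlen := congrArg List.length h2
        rw [List.length_take, min_eq_left h3] at hlen
        cases k with
        | zero =>
          exfalso
          have e : (prd τ s y l 0 t).length = (runs τ s y 0).length := rfl
          omega
        | succ k =>
          have e : (prd τ s y l (k + 1) t) =
            τ.run (s k) ((runs τ s y k).take (em τ s y l k t)) := rfl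
          rw [e] at hlen
          have hi : em τ s y l k t < (runs τ s y k).length := by
            by_contra hcon
            rw [List.take_of_length_le (by omega), ← runs_succ] at hlen
            omega
          have h4 := ih k (by omega) hi
          rw [dd_succ (by omega), ← hlen] at h4
          omega
      · -- the next stage is busy
        have hb2 : buf (st τ s y l (k + 1) t) ≠ [] := fun h => hev ⟨hb, h⟩
        have hkl : k < l := by
          by_contra hcon
          have : k = l := by omega
          subst this
          rw [st_sink] at hb2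
          exact hb2 rfl
        obtain ⟨o', g1, g2, g3⟩ := inv_all (τ := τ) (s := s) (y := y) (l := l) t (k + 1) hkl
        have ho' : o' ≠ [] := by
          rw [g1] at hb2
          exact hb2
        have hlen := congrArg List.length g2
        rw [List.length_append, List.length_take, min_eq_left g3] at hlen
        have hpos := List.length_pos_of_ne_nil ho'
        have e : (prd τ s y l (k + 1) t) =
          τ.run (s k) ((runs τ s y k).take (em τ s y l k t)) := rfl
        rw [e] at hlen
        have hc : (τ.run (s k) ((runs τ s y k).take (em τ s y l k t))).length ≤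
            (runs τ s y (k + 1)).length := (run_take_prefix k _).length_le
        have h4 := ih (k + 1) hkl (by omega)
        have h5 := dd_lt (τ := τ) (s := s) (y := y) (l := l) hne (k := k + 1)
          (m := em τ s y l (k + 1) t)
          (m' := (τ.run (s k) ((runs τ s y k).take (em τ s y l k t))).length) (by omega) hc
        rw [← dd_succ hkl] at h5
        omega

end speed

end pipe

/-- **PIPE3** -/
theorem pipe3 : SPipe := by
  intro S τ s y l hne T hT
  rw [heads]
  refine List.take_of_length_le ?_
  by_contra hcon
  have h1 := speed (τ := τ) (s := s) (y := y) (l := l) hne T l le_rfl (by omega)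
  rw [dd_last (by omega)] at h1
  omega

end Pool.Agent.TH247.RM3
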